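import Pool.Agent.H36.UVD.Quot
import Pool.Agent.H23.UVD.Targets

/-!
# Row R9: all schemes of degree at most `d` are closed subschemes of one scheme
-/

set_option autoImplicit false

open Module

namespace Pool.Agent.H36.UVD

universe u

theorem pf_PD (k : Type u) [Field k] [IsAlgClosed k] : Pool.Agent.H23.UVD.T_PD k := by
  intro d A _ _ _ hA
  exact exists_surj k d A hA

theorem pf_PDF (k : Type u) [Field k] : Pool.Agent.H23.UVD.T_PDF k := fun d => finite_Pd k d

end Pool.Agent.H36.UVD
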