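import Mathlib

/-!
# Zariski closure, tensor powers and noetherian induction (rows R6 and R7)

`ι → k` is the affine space; `T` is in the closure of `V` if every polynomial which vanishes on `V`
vanishes at `T`.
-/

set_option autoImplicit false

open MvPolynomial

namespace Pool.Agent.H36.UVD

universe u v

variable {k : Type u} [Field k] {ι : Type v}

/-- `T` is in the Zariski closure of `V` -/
def InCl (V : Set (ι → k)) (T : ι → k) : Prop :=
  ∀ p : MvPolynomial ι k, (∀ S ∈ V, eval S p = 0) → eval T p = 0

/-- the `N`-th tensor power of a vector -/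
def tp (N : ℕ) (T : ι → k) : (Fin N → ι) → k := fun x => ∏ l, T (x l)

/-- R6: the tensor powers of a point of the closure are in the span. -/
theorem tp_mem_span [Fintype ι] {V : Set (ι → k)} {T : ι → k} (h : InCl V T) (N : ℕ) :
    tp N T ∈ Submodule.span k (tp N '' V) := by
  classical
  by_contra hcon
  obtain ⟨f, hf, hf2⟩ := Submodule.exists_le_ker_of_notMem hcon
  apply hf
  set p : MvPolynomial ι k := ∑ x : Fin N → ι, C (f (Pi.single x 1)) * ∏ l, X (x l) with hp
  have key : ∀ S : ι → k, eval S p = f (tp N S) := by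
    intro S
    have h1 : tp N S = ∑ x : Fin N → ι, tp N S x • (Pi.single x (1 : k) : (Fin N → ι) → k) := by
      funext y
      rw [Finset.sum_apply, Finset.sum_eq_single y]
      · rw [Pi.smul_apply, Pi.single_eq_same, smul_eq_mul, mul_one]
      · intro x _ hx
        rw [Pi.smul_apply, Pi.single_eq_of_ne hx.symm, smul_zero]
      · intro h
        exact absurd (Finset.mem_univ _) h
    rw [hp, map_sum]
    conv_rhs => rw [h1, map_sum]
    refine Finset.sum_congr rfl fun x _ => ?_
    rw [map_smul, map_mul, eval_C, map_prod, smul_eq_mul, mul_comm]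
    congr 1
    unfold tp
    refine Finset.prod_congr rfl fun l _ => ?_
    rw [eval_X]
  rw [← key]
  refine h p fun S hS => ?_
  rw [key]
  exact LinearMap.mem_ker.1 (hf2 (Submodule.subset_span ⟨S, hS, rfl⟩))

/-- R7: in a sequence of points some point is in the closure of the later ones. -/
theorem exists_inCl [Finite ι] (T : ℕ → ι → k) : ∃ j : ℕ, InCl {S | ∃ i, j < i ∧ S = T i} (T j) := by
  let J : ℕ → Ideal (MvPolynomial ι k) := fun j =>
    { carrier := {p | ∀ i, j ≤ i → eval (T i) p = 0}
      add_mem' := fun {a b} ha hb i hi => by rw [map_add, ha i hi, hb i hi, add_zero]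
      zero_mem' := fun i _ => map_zero _
      smul_mem' := fun c a ha i hi => by rw [smul_eq_mul, map_mul, ha i hi, mul_zero] }
  have hmono : Monotone J := fun a b hab p hp i hi => hp i (hab.trans hi)
  obtain ⟨n, hn⟩ := monotone_stabilizes_iff_noetherian.2
    (inferInstance : IsNoetherianRing (MvPolynomial ι k)) ⟨J, hmono⟩
  refine ⟨n, fun p hp => ?_⟩
  have h1 : p ∈ J (n + 1) := fun i hi => hp (T i) ⟨i, by omega, rfl⟩
  have h2 : J n = J (n + 1) := hn (n + 1) (Nat.le_succ n)
  rw [← h2] at h1
  exact h1 n le_rfl

end Pool.Agent.H36.UVD
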