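import Pool.Agent.H85.DB.PALL
import Pool.Agent.H86.DB.RED
import Pool.Agent.H3.DB.MON

/-!
# Every algebra of dimension at most `d` is a quotient of one algebra (row R9)

`Pd k d` is the algebra of `d` copies of the scheme `Spec k[x_1..x_d]/(x_1..x_d)^d`.
-/

set_option autoImplicit false

open Module MvPolynomial

namespace Pool.Agent.H36.UVD

open Pool.Agent.H12.Defect Pool.Agent.H15.Defect Pool.Agent.H15.ER Pool.Agent.H86.DB
open Pool.Agent.H14.RF hiding tr

universe u

/-- the algebra `k[x_1..x_d]/(x_1..x_d)^d` -/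
abbrev Qd (k : Type u) [Field k] (d : ℕ) : Type u := MvPolynomial (Fin d) k ⧸ (mm k d ^ d)

/-- `d` copies of `Spec k[x_1..x_d]/(x_1..x_d)^d` -/
abbrev Pd (k : Type u) [Field k] (d : ℕ) : Type u := Fin d → Qd k d

instance finite_Qd (k : Type u) [Field k] (d : ℕ) : Module.Finite k (Qd k d) := by
  have h : Module.Finite k (MvPolynomial (Fin d) k ⧸ mm k d) := finite_mm
  exact (Pool.Agent.H3.DB.pf_MON k d (mm k d) d h).1

instance finite_Pd (k : Type u) [Field k] (d : ℕ) : Module.Finite k (Pd k d) :=
  inferInstanceAs (Module.Finite k (Fin d → Qd k d))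

section nil

variable {k : Type u} [Field k] {A : Type u} [CommRing A] [Algebra k A] [Module.Finite k A]

/-- the dimension of the maximal ideal -/
theorem finrank_ker (α : A →ₐ[k] k) :
    finrank k (LinearMap.ker α.toLinearMap) + 1 = finrank k A := by
  have h := LinearMap.finrank_range_add_finrank_ker α.toLinearMap
  have h2 : LinearMap.range α.toLinearMap = ⊤ := by
    rw [LinearMap.range_eq_top]
    intro x
    refine ⟨algebraMap k A x, ?_⟩
    simp
  rw [h2, finrank_top, finrank_self] at h
  omega

/-- a nilpotent ideal with `I ^ n ≠ 0` has dimension at least `n` -/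
theorem le_finrank_of_pow_ne {I : Ideal A} {c : ℕ} (hc : I ^ c = ⊥) :
    ∀ n : ℕ, I ^ n ≠ ⊥ → ∀ j ≤ n, (n - j) + 1 ≤ finrank k ((I ^ j).restrictScalars k) := by
  intro n hn j hj
  induction hd : n - j generalizing j with
  | zero =>
    have hj2 : j = n := by omega
    subst hj2
    have h1 : (I ^ j).restrictScalars k ≠ ⊥ := by
      intro h
      apply hn
      rwa [Submodule.restrictScalars_eq_bot_iff] at h
    have := Submodule.one_le_finrank_iff.2 h1
    omega
  | succ m ih =>
    have h1 := ih (j + 1) (by omega) (by omega)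
    have hle : I ^ (j + 1) ≤ I ^ j := Ideal.pow_le_pow_right (Nat.le_succ j)
    have hne : I ^ (j + 1) ≠ I ^ j := by
      intro h
      have h2 : ∀ i, I ^ (j + i) = I ^ j := by
        intro i
        induction i with
        | zero => rfl
        | succ i ih2 =>
          have e : j + (i + 1) = i + (j + 1) := by omega
          rw [e, pow_add, h, ← pow_add, Nat.add_comm i j, ih2]
      have h3 : I ^ j = ⊥ := by
        rw [← h2 c, pow_add, hc]
        simp
      apply hn
      have e : n = j + (n - j) := by omega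
      rw [e, h2, h3]
    have hlt : (I ^ (j + 1)).restrictScalars k < (I ^ j).restrictScalars k := by
      refine lt_of_le_of_ne (fun x hx => hle hx) fun h => hne ?_
      exact Submodule.restrictScalars_injective k A A h
    have := Submodule.finrank_lt_finrank_of_lt hlt
    omega

/-- the maximal ideal of a local algebra of dimension `n` has `n`-th power zero -/
theorem ker_pow_finrank (α : A →ₐ[k] k) {c : ℕ} (hc : RingHom.ker α ^ c = ⊥) :
    RingHom.ker α ^ finrank k A = ⊥ := by
  by_contra hn
  have h := le_finrank_of_pow_ne (k := k) hc _ hn 0 (Nat.zero_le _)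
  have h2 : finrank k ((RingHom.ker α ^ 0).restrictScalars k) ≤ finrank k A :=
    Submodule.finrank_le _
  omega

/-- a local algebra of dimension at most `d` is a quotient of `k[x_1..x_d]/(x)^d` -/
theorem local_surj (α : A →ₐ[k] k) {c : ℕ} (hc : RingHom.ker α ^ c = ⊥) {d : ℕ}
    (hd : finrank k A ≤ d) : ∃ f : Qd k d →ₐ[k] A, Function.Surjective f := by
  have hfr := finrank_ker α
  set r := finrank k (LinearMap.ker α.toLinearMap) with hr
  obtain ⟨b⟩ : Nonempty (Basis (Fin r) k (LinearMap.ker α.toLinearMap)) :=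
    ⟨Module.finBasis _ _⟩
  set x : Fin d → A := fun i => if h : (i : ℕ) < r then ((b ⟨i, h⟩ :) : A) else 0 with hx
  have hxk : ∀ i, x i ∈ RingHom.ker α := by
    intro i
    rw [hx]
    dsimp only
    split_ifs with h
    · exact (b ⟨i, h⟩).2
    · exact Ideal.zero_mem _
  set g : MvPolynomial (Fin d) k →ₐ[k] A := aeval x with hg
  have hker : ∀ p ∈ mm k d ^ d, g p = 0 := by
    have h1 : (mm k d).map g.toRingHom ≤ RingHom.ker α := by
      rw [mm, Ideal.map_span, Ideal.span_le]
      rintro _ ⟨_, ⟨i, rfl⟩, rfl⟩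
      have h2 : g.toRingHom (X i) = x i := aeval_X x i
      rw [h2]
      exact hxk i
    have h2 : (mm k d ^ d).map g.toRingHom = ⊥ := by
      rw [Ideal.map_pow, eq_bot_iff]
      refine (Ideal.pow_right_mono h1 d).trans ?_
      refine (Ideal.pow_le_pow_right hd).trans ?_
      rw [ker_pow_finrank α hc]
    intro p hp
    have h3 : g.toRingHom p ∈ (mm k d ^ d).map g.toRingHom := Ideal.mem_map_of_mem _ hp
    rw [h2] at h3
    exact h3
  refine ⟨Ideal.Quotient.liftₐ _ g hker, ?_⟩
  intro a
  have hmem : a ∈ AlgHom.range g := by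
    have h1 : a - algebraMap k A (α a) ∈ LinearMap.ker α.toLinearMap := by
      rw [LinearMap.mem_ker, AlgHom.toLinearMap_apply, map_sub, AlgHom.commutes]
      simp
    have h2 : ∀ z : LinearMap.ker α.toLinearMap, (z : A) ∈ AlgHom.range g := by
      intro z
      rw [← b.sum_repr z, AddSubmonoidClass.coe_finsetSum]
      refine Subalgebra.sum_mem _ fun i _ => ?_
      rw [Submodule.coe_smul]
      have h5 : (b i : A) ∈ AlgHom.range g := by
        refine ⟨X ⟨i, by omega⟩, ?_⟩
        have h6 : g (X ⟨(i : ℕ), by omega⟩) = x ⟨i, by omega⟩ := aeval_X x _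
        have h7 : x ⟨(i : ℕ), by omega⟩ = (b i : A) := by
          rw [hx]
          dsimp only
          rw [dif_pos i.2]
        rw [← h7, ← h6]
        rfl
      exact Subalgebra.smul_mem _ h5 _
    have h3 := h2 ⟨_, h1⟩
    have h4 := Subalgebra.add_mem _ h3 (Subalgebra.algebraMap_mem (AlgHom.range g) (α a))
    simpa using h4
  obtain ⟨p, hp⟩ := hmem
  exact ⟨Ideal.Quotient.mk _ p, hp⟩

end nil

/-- pull back along an injection of index sets -/
noncomputable def reindex (k : Type u) [Field k] (Q : Type u) [CommRing Q] [Algebra k Q]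
    {a b : ℕ} (e : Fin a → Fin b) : (Fin b → Q) →ₐ[k] (Fin a → Q) :=
  AlgHom.pi fun i => Pi.evalAlgHom k (fun _ => Q) (e i)

theorem reindex_surj (k : Type u) [Field k] (Q : Type u) [CommRing Q] [Algebra k Q]
    {a b : ℕ} (e : Fin a → Fin b) (he : Function.Injective e) :
    Function.Surjective (reindex k Q e) := by
  intro y
  refine ⟨fun j => Function.extend e y 0 j, ?_⟩
  funext i
  exact he.extend_apply y 0 i

theorem surj_aux (k : Type u) [Field k] [IsAlgClosed k] (d : ℕ) (n : ℕ) :
    ∀ (A : Type u) [CommRing A] [Algebra k A] [Module.Finite k A], finrank k A = n → n ≤ d →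
      ∃ f : (Fin n → Qd k d) →ₐ[k] A, Function.Surjective f := by
  induction n using Nat.strong_induction_on with
  | _ n ih =>
    intro A _ _ _ hn hnd
    rcases subsingleton_or_nontrivial A with hA | hA
    · have h0 : n = 0 := by
        rw [← hn]
        exact finrank_zero_of_subsingleton
      subst h0
      refine ⟨
        { toFun := fun _ => 0
          map_one' := Subsingleton.elim _ _
          map_mul' := fun _ _ => Subsingleton.elim _ _
          map_zero' := rfl
          map_add' := fun _ _ => Subsingleton.elim _ _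
          commutes' := fun _ => Subsingleton.elim _ _ }, fun a => ⟨0, Subsingleton.elim _ _⟩⟩
    obtain ⟨α⟩ := exists_point (k := k) (A := A)
    have hpos := Module.finrank_pos (R := k) (M := A)
    rcases local_or_split α with ⟨c, hc⟩ | ⟨A₁, A₂, _, _, _, _, _, _, _, _, ⟨e⟩⟩
    · obtain ⟨f, hf⟩ := local_surj α hc (d := d) (by omega)
      refine ⟨f.comp (Pi.evalAlgHom k (fun _ => Qd k d) ⟨0, by omega⟩), ?_⟩
      rw [AlgHom.coe_comp]
      refine hf.comp ?_
      exact Function.surjective_eval _
    · have hfr : finrank k A = finrank k A₁ + finrank k A₂ := by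
        rw [← Module.finrank_prod]
        exact LinearEquiv.finrank_eq e.toLinearEquiv
      have hp1 := Module.finrank_pos (R := k) (M := A₁)
      have hp2 := Module.finrank_pos (R := k) (M := A₂)
      obtain ⟨f₁, h₁⟩ := ih (finrank k A₁) (by omega) A₁ rfl (by omega)
      obtain ⟨f₂, h₂⟩ := ih (finrank k A₂) (by omega) A₂ rfl (by omega)
      have hn' : finrank k A₁ + finrank k A₂ = n := by omega
      subst hn'
      set e₁ : Fin (finrank k A₁) → Fin (finrank k A₁ + finrank k A₂) :=
        Fin.castAdd (finrank k A₂) with he₁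
      set e₂ : Fin (finrank k A₂) → Fin (finrank k A₁ + finrank k A₂) :=
        Fin.natAdd (finrank k A₁) with he₂
      refine ⟨e.symm.toAlgHom.comp ((f₁.comp (reindex k (Qd k d) e₁)).prod
        (f₂.comp (reindex k (Qd k d) e₂))), ?_⟩
      intro a
      obtain ⟨y₁, hy₁⟩ := h₁ (e a).1
      obtain ⟨y₂, hy₂⟩ := h₂ (e a).2
      refine ⟨Fin.append y₁ y₂, ?_⟩
      have g₁ : reindex k (Qd k d) e₁ (Fin.append y₁ y₂) = y₁ := by
        funext i
        exact Fin.append_left y₁ y₂ i
      have g₂ : reindex k (Qd k d) e₂ (Fin.append y₁ y₂) = y₂ := by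
        funext i
        exact Fin.append_right y₁ y₂ i
      show e.symm (f₁ (reindex k (Qd k d) e₁ (Fin.append y₁ y₂)),
        f₂ (reindex k (Qd k d) e₂ (Fin.append y₁ y₂))) = a
      rw [g₁, g₂, hy₁, hy₂]
      exact e.symm_apply_apply a

/-- Every algebra of dimension at most `d` is a quotient of `Pd k d`. -/
theorem exists_surj (k : Type u) [Field k] [IsAlgClosed k] (d : ℕ) (A : Type u) [CommRing A]
    [Algebra k A] [Module.Finite k A] (hA : finrank k A ≤ d) :
    ∃ f : Pd k d →ₐ[k] A, Function.Surjective f := by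
  obtain ⟨f, hf⟩ := surj_aux k d _ A rfl hA
  refine ⟨f.comp (reindex k (Qd k d) (Fin.castLE hA)), ?_⟩
  rw [AlgHom.coe_comp]
  exact hf.comp (reindex_surj k _ _ (Fin.castLE_injective hA))

end Pool.Agent.H36.UVD
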